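import Pool.Agent.LSG.Stmts

/-!
# Squad LSG, row TRA: the transfinite construction
-/

set_option autoImplicit false

open Cardinal Set

namespace Pool.Agent.LSG.H13

open Pool.Agent.LSG

theorem neg_K (x : K) : -x = x := by
  funext n
  exact ZMod.neg_eq_self_mod_two (x n)

theorem add_self_K (x : K) : x + x = 0 := by
  have h := neg_add_cancel x
  rwa [neg_K] at h

/-- the cardinality of the closure. -/
theorem tra_card (Z : Set K) (hZ : #Z < 𝔠) : #(AddSubgroup.closure Z) < 𝔠 := by
  have hsub : ((AddSubgroup.closure Z : AddSubgroup K) : Set K)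
      ⊆ Set.range (fun l : List Z => (l.map Subtype.val).sum) := by
    intro z hz
    refine AddSubgroup.closure_induction
      (p := fun z _ => z ∈ Set.range (fun l : List Z => (l.map Subtype.val).sum))
      ?_ ?_ ?_ ?_ hz
    · intro x hx
      exact ⟨[⟨x, hx⟩], by simp⟩
    · exact ⟨[], by simp⟩
    · rintro _ _ _ _ ⟨l1, rfl⟩ ⟨l2, rfl⟩
      exact ⟨l1 ++ l2, by simp⟩
    · rintro x _ h
      rw [neg_K]
      exact h
  have h1 : #((AddSubgroup.closure Z : AddSubgroup K) : Set K) ≤ #(List Z) :=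
    (Cardinal.mk_le_mk_of_subset hsub).trans Cardinal.mk_range_le
  have h2 : #(List Z) ≤ max ℵ₀ #Z := Cardinal.mk_list_le_max Z
  exact (h1.trans h2).trans_lt (max_lt aleph0_lt_continuum hZ)

/-- one step of the construction. -/
theorem tra_step (P : (ℕ → Bool) → K) (φ : K → K) (h1 : Function.Injective fun σ => φ (P σ))
    (h2 : Function.Injective fun σ => φ (P σ) - P σ) (Z Y : Set K) (hZ : #Z < 𝔠) (hY : #Y < 𝔠) :
    ∃ σ, (∀ g ∈ AddSubgroup.closure Z, ∀ y ∈ Y, P σ ≠ g + y) ∧ φ (P σ) ∉ AddSubgroup.closure Z ∧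
      φ (P σ) - P σ ∉ AddSubgroup.closure Z := by
  have hP : Function.Injective P := by
    intro σ τ h
    apply h1
    simp only [h]
  let G : Set K := ((AddSubgroup.closure Z : AddSubgroup K) : Set K)
  have hGc : #G < 𝔠 := tra_card Z hZ
  by_contra hcon
  push Not at hcon
  have hcov : (Set.univ : Set (ℕ → Bool)) ⊆ (P ⁻¹' (Set.image2 (fun g y => g + y) G Y)) ∪
      (((fun σ => φ (P σ)) ⁻¹' G) ∪ ((fun σ => φ (P σ) - P σ) ⁻¹' G)) := by
    intro σ _
    by_cases ha : P σ ∈ Set.image2 (fun g y => g + y) G Y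
    · exact Or.inl ha
    · by_cases hb : φ (P σ) ∈ G
      · exact Or.inr (Or.inl hb)
      · refine Or.inr (Or.inr ?_)
        refine hcon σ ?_ hb
        intro g hg y hy h
        exact ha ⟨g, hg, y, hy, h.symm⟩
  have hle := Cardinal.mk_le_mk_of_subset hcov
  rw [Cardinal.mk_univ] at hle
  have hc : #(ℕ → Bool) = 𝔠 := by simp
  rw [hc] at hle
  have ha : #(P ⁻¹' (Set.image2 (fun g y => g + y) G Y) : Set (ℕ → Bool)) < 𝔠 := by
    refine (Cardinal.mk_preimage_of_injective P _ hP).trans_lt ?_
    refine Cardinal.mk_image2_le.trans_lt ?_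
    exact Cardinal.mul_lt_of_lt aleph0_le_continuum hGc hY
  have hb : #((fun σ => φ (P σ)) ⁻¹' G : Set (ℕ → Bool)) < 𝔠 :=
    (Cardinal.mk_preimage_of_injective _ _ h1).trans_lt hGc
  have hd : #((fun σ => φ (P σ) - P σ) ⁻¹' G : Set (ℕ → Bool)) < 𝔠 :=
    (Cardinal.mk_preimage_of_injective _ _ h2).trans_lt hGc
  have hlt := Cardinal.add_lt_of_lt aleph0_le_continuum ha
    (((Cardinal.mk_union_le _ _).trans_lt
      (Cardinal.add_lt_of_lt aleph0_le_continuum hb hd)))
  exact absurd (hle.trans (Cardinal.mk_union_le _ _)) (not_le.2 hlt)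

/-- closure of an insertion in the Cantor group. -/
theorem closure_ins (Z : Set K) (a z : K) (hz : z ∈ AddSubgroup.closure (insert a Z)) :
    z ∈ AddSubgroup.closure Z ∨ z - a ∈ AddSubgroup.closure Z := by
  refine AddSubgroup.closure_induction
    (p := fun z _ => z ∈ AddSubgroup.closure Z ∨ z - a ∈ AddSubgroup.closure Z) ?_ ?_ ?_ ?_ hz
  · intro x hx
    rcases hx with rfl | hx
    · right
      rw [sub_self]
      exact AddSubgroup.zero_mem _
    · exact Or.inl (AddSubgroup.subset_closure hx)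
  · exact Or.inl (AddSubgroup.zero_mem _)
  · rintro x y _ _ (hx | hx) (hy | hy)
    · exact Or.inl (AddSubgroup.add_mem _ hx hy)
    · right
      have h := AddSubgroup.add_mem _ hx hy
      have e : x + y - a = x + (y - a) := by abel
      rw [e]
      exact h
    · right
      have h := AddSubgroup.add_mem _ hx hy
      have e : x + y - a = (x - a) + y := by abel
      rw [e]
      exact h
    · left
      have h := AddSubgroup.add_mem _ hx hy
      have e : x + y = (x - a) + (y - a) := by
        have e1 : (x - a) + (y - a) = x + y - (a + a) := by abel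
        rw [e1, add_self_K, sub_zero]
      rw [e]
      exact h
  · intro x _ h
    rw [neg_K]
    exact h

section order

variable {J : Type} [LinearOrder J]

/-- finitely many generators suffice. -/
theorem closure_dir (x : J → K) (S : Set J) (j : J) (hj : j ∈ S) (z : K)
    (hz : z ∈ AddSubgroup.closure (x '' S)) :
    ∃ i ∈ S, j ≤ i ∧ z ∈ AddSubgroup.closure (x '' Set.Iic i) := by
  refine AddSubgroup.closure_induction
    (p := fun z _ => ∃ i ∈ S, j ≤ i ∧ z ∈ AddSubgroup.closure (x '' Set.Iic i)) ?_ ?_ ?_ ?_ hz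
  · rintro _ ⟨l, hl, rfl⟩
    have hm : max j l ∈ S := by
      rcases max_choice j l with h | h <;> rw [h]
      · exact hj
      · exact hl
    exact ⟨max j l, hm, le_max_left _ _, AddSubgroup.subset_closure ⟨l, le_max_right _ _, rfl⟩⟩
  · exact ⟨j, hj, le_rfl, AddSubgroup.zero_mem _⟩
  · rintro u v _ _ ⟨i1, hi1, hj1, h1⟩ ⟨i2, hi2, hj2, h2⟩
    have hm : max i1 i2 ∈ S := by
      rcases max_choice i1 i2 with h | h <;> rw [h]
      · exact hi1
      · exact hi2
    refine ⟨max i1 i2, hm, hj1.trans (le_max_left _ _), AddSubgroup.add_mem _ ?_ ?_⟩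
    · exact AddSubgroup.closure_mono (Set.image_mono (Set.Iic_subset_Iic.2 (le_max_left _ _))) h1
    · exact AddSubgroup.closure_mono (Set.image_mono (Set.Iic_subset_Iic.2 (le_max_right _ _))) h2
  · intro u _ h
    rw [neg_K]
    exact h

/-- the construction over a well-order with small initial segments. -/
theorem tra_order [WellFoundedLT J] (hJ : ∀ i : J, #(Set.Iio i) < 𝔠)
    (P : J → (ℕ → Bool) → K) (φ : J → K → K)
    (h1 : ∀ i, Function.Injective fun σ => φ i (P i σ))
    (h2 : ∀ i, Function.Injective fun σ => φ i (P i σ) - P i σ) :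
    ∃ G : AddSubgroup K, ∀ i, ∃ σ, P i σ ∈ G ∧ φ i (P i σ) ∉ G := by
  classical
  -- the recursion
  have hex : ∃ s : J → (ℕ → Bool), ∀ i,
      (∀ g ∈ AddSubgroup.closure ((fun j => P j (s j)) '' Set.Iio i),
        ∀ y ∈ (fun j => φ j (P j (s j))) '' Set.Iio i, P i (s i) ≠ g + y) ∧
      φ i (P i (s i)) ∉ AddSubgroup.closure ((fun j => P j (s j)) '' Set.Iio i) ∧
      φ i (P i (s i)) - P i (s i) ∉ AddSubgroup.closure ((fun j => P j (s j)) '' Set.Iio i) := by
    have hstep : ∀ (i : J) (prev : (j : J) → j < i → (ℕ → Bool)), ∃ σ : ℕ → Bool,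
        (∀ g ∈ AddSubgroup.closure (Set.range (fun j : Set.Iio i => P j.1 (prev j.1 j.2))),
          ∀ y ∈ Set.range (fun j : Set.Iio i => φ j.1 (P j.1 (prev j.1 j.2))), P i σ ≠ g + y) ∧
        φ i (P i σ) ∉ AddSubgroup.closure (Set.range (fun j : Set.Iio i => P j.1 (prev j.1 j.2))) ∧
        φ i (P i σ) - P i σ ∉
          AddSubgroup.closure (Set.range (fun j : Set.Iio i => P j.1 (prev j.1 j.2))) := by
      intro i prev
      refine tra_step (P i) (φ i) (h1 i) (h2 i) _ _ ?_ ?_
      · exact Cardinal.mk_range_le.trans_lt (hJ i)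
      · exact Cardinal.mk_range_le.trans_lt (hJ i)
    choose F hF using hstep
    set s : J → (ℕ → Bool) := (wellFounded_lt (α := J)).fix F with hs
    have hfix : ∀ i, s i = F i (fun j _ => s j) := by
      intro i
      rw [hs]
      exact WellFounded.fix_eq _ F i
    refine ⟨s, ?_⟩
    intro i
    have h := hF i (fun j _ => s j)
    rw [← hfix i] at h
    have e1 : Set.range (fun j : Set.Iio i => P j.1 (s j.1)) = (fun j => P j (s j)) '' Set.Iio i := by
      rw [Set.image_eq_range]
    have e2 : Set.range (fun j : Set.Iio i => φ j.1 (P j.1 (s j.1)))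
        = (fun j => φ j (P j (s j))) '' Set.Iio i := by
      rw [Set.image_eq_range]
    rw [e1, e2] at h
    exact h
  obtain ⟨s, hs⟩ := hex
  set x : J → K := fun j => P j (s j) with hx
  -- the claim
  have hclaim : ∀ i j, j ≤ i → φ j (x j) ∉ AddSubgroup.closure (x '' Set.Iic i) := by
    intro i
    induction i using WellFoundedLT.induction with
    | ind i ih =>
      intro j hji hmem
      have hI : x '' Set.Iic i = insert (x i) (x '' Set.Iio i) := by
        rw [← Set.Iio_insert, Set.image_insert_eq]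
      rw [hI] at hmem
      obtain ⟨ha, hb, hc⟩ := hs i
      rcases closure_ins _ _ _ hmem with h | h
      · rcases hji.lt_or_eq with hlt | rfl
        · obtain ⟨i', hi', hj', hz⟩ := closure_dir x (Set.Iio i) j hlt _ h
          exact ih i' hi' j hj' hz
        · exact hb h
      · rcases hji.lt_or_eq with hlt | rfl
        · refine ha (-(φ j (x j) - x i)) (AddSubgroup.neg_mem _ h) (φ j (x j)) ⟨j, hlt, rfl⟩ ?_
          change x i = _
          abel
        · exact hc h
  refine ⟨AddSubgroup.closure (Set.range x), ?_⟩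
  intro i
  refine ⟨s i, AddSubgroup.subset_closure ⟨i, rfl⟩, ?_⟩
  intro hmem
  rw [← Set.image_univ] at hmem
  obtain ⟨i', -, hj', hz⟩ := closure_dir x Set.univ i (Set.mem_univ i) _ hmem
  exact hclaim i' i hj' hz

end order

/-- **Row TRA**. -/
theorem tra : TraStmt := by
  intro I P φ hI h1 h2
  obtain ⟨e⟩ : Nonempty ((#I).ord.ToType ≃ I) := Cardinal.eq.1 (Cardinal.mk_ord_toType _)
  obtain ⟨G, hG⟩ := tra_order (J := (#I).ord.ToType)
    (fun i => (Cardinal.mk_Iio_ord_toType i).trans_le hI)
    (fun i => P (e i)) (fun i => φ (e i)) (fun i => h1 (e i)) (fun i => h2 (e i))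
  refine ⟨G, ?_⟩
  intro i
  have h := hG (e.symm i)
  simpa using h

end Pool.Agent.LSG.H13
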